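import Pool.Agent.H18.VZ.Targets
import Pool.Agent.H74.HX.PEI
import Pool.Agent.H33.HX.CVD

/-!
# The degree of a self-map (BAS)
-/

open MvPolynomial
open Pool.Agent.H12.ZD (pmap)
open Pool.Agent.H18.HIT Pool.Agent.H18.HX Pool.Agent.H18.VZ

namespace Pool.Agent.H70.VZ

/-- generation of the whole ring from the products of the variables with the powers of `θ` -/
theorem bas_gen {L : ℕ} {k : Type} [Field k] (P : Po L k) (F : Tup L k) (e : ℕ) (he : 1 ≤ e)
    (θ Δ : Po L k) (b : Fin L → Fin e → Fin e → Po L k)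
    (hb : ∀ (l : Fin L) (j : Fin e),
      P ∣ aeval F Δ * (X l * θ ^ (j : ℕ)) - ∑ i : Fin e, θ ^ (i : ℕ) * aeval F (b l j i))
    (u : Po L k) : ∃ (M : ℕ) (c : Fin e → Po L k),
      P ∣ aeval F Δ ^ M * u - ∑ i : Fin e, θ ^ (i : ℕ) * aeval F (c i) := by
  induction u using MvPolynomial.induction_on with
  | C a =>
    refine ⟨0, fun i => if i = ⟨0, he⟩ then C a else 0, ?_⟩
    have h : ∑ i : Fin e, θ ^ (i : ℕ) * aeval F (if i = ⟨0, he⟩ then (C a : Po L k) else 0) =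
        C a := by
      rw [Finset.sum_eq_single (⟨0, he⟩ : Fin e)]
      · rw [if_pos rfl, pow_zero, one_mul, aeval_C]
        rfl
      · intro i _ hi
        rw [if_neg hi, map_zero, mul_zero]
      · intro h
        exact absurd (Finset.mem_univ _) h
    rw [h, pow_zero, one_mul, sub_self]
    exact dvd_zero _
  | add u v hu hv =>
    obtain ⟨M, c, hc⟩ := hu
    obtain ⟨M', c', hc'⟩ := hv
    refine ⟨M + M', fun i => Δ ^ M' * c i + Δ ^ M * c' i, ?_⟩
    have h : aeval F Δ ^ (M + M') * (u + v) -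
        ∑ i : Fin e, θ ^ (i : ℕ) * aeval F (Δ ^ M' * c i + Δ ^ M * c' i) =
        aeval F Δ ^ M' * (aeval F Δ ^ M * u - ∑ i : Fin e, θ ^ (i : ℕ) * aeval F (c i)) +
        aeval F Δ ^ M * (aeval F Δ ^ M' * v - ∑ i : Fin e, θ ^ (i : ℕ) * aeval F (c' i)) := by
      simp only [map_add, map_mul, map_pow, mul_add, Finset.sum_add_distrib, mul_sub,
        Finset.mul_sum]
      have e1 : ∑ x : Fin e, θ ^ (x : ℕ) * (aeval F Δ ^ M' * aeval F (c x)) =
          ∑ x : Fin e, aeval F Δ ^ M' * (θ ^ (x : ℕ) * aeval F (c x)) :=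
        Finset.sum_congr rfl fun x _ => by ring
      have e2 : ∑ x : Fin e, θ ^ (x : ℕ) * (aeval F Δ ^ M * aeval F (c' x)) =
          ∑ x : Fin e, aeval F Δ ^ M * (θ ^ (x : ℕ) * aeval F (c' x)) :=
        Finset.sum_congr rfl fun x _ => by ring
      rw [e1, e2]
      ring
    rw [h]
    exact dvd_add (Dvd.dvd.mul_left hc _) (Dvd.dvd.mul_left hc' _)
  | mul_X u l hu =>
    obtain ⟨M, c, hc⟩ := hu
    refine ⟨M + 1, fun i => ∑ j : Fin e, c j * b l j i, ?_⟩
    have h : aeval F Δ ^ (M + 1) * (u * X l) -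
        ∑ i : Fin e, θ ^ (i : ℕ) * aeval F (∑ j : Fin e, c j * b l j i) =
        aeval F Δ * X l * (aeval F Δ ^ M * u - ∑ i : Fin e, θ ^ (i : ℕ) * aeval F (c i)) +
        ∑ j : Fin e, aeval F (c j) * (aeval F Δ * (X l * θ ^ (j : ℕ)) -
          ∑ i : Fin e, θ ^ (i : ℕ) * aeval F (b l j i)) := by
      have e1 : ∑ i : Fin e, θ ^ (i : ℕ) * aeval F (∑ j : Fin e, c j * b l j i) =
          ∑ j : Fin e, aeval F (c j) * ∑ i : Fin e, θ ^ (i : ℕ) * aeval F (b l j i) := by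
        simp only [map_sum, map_mul, Finset.mul_sum]
        rw [Finset.sum_comm]
        exact Finset.sum_congr rfl fun x _ => Finset.sum_congr rfl fun y _ => by ring
      have e2 : ∑ j : Fin e, aeval F (c j) * (aeval F Δ * (X l * θ ^ (j : ℕ)) -
          ∑ i : Fin e, θ ^ (i : ℕ) * aeval F (b l j i)) =
          aeval F Δ * X l * (∑ j : Fin e, θ ^ (j : ℕ) * aeval F (c j)) -
          ∑ j : Fin e, aeval F (c j) * ∑ i : Fin e, θ ^ (i : ℕ) * aeval F (b l j i) := by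
        rw [Finset.mul_sum, ← Finset.sum_sub_distrib]
        exact Finset.sum_congr rfl fun x _ => by ring
      rw [e1, e2]
      ring
    rw [h]
    exact dvd_add (Dvd.dvd.mul_left hc _)
      (Finset.dvd_sum fun j _ => Dvd.dvd.mul_left (hb l j) _)

theorem pf_BAS : T_BAS := by
  intro N k _ _ _ P F hP _ hS
  have hprime : Prime P := hP.prime
  have hI : (Ideal.span {P}).IsPrime := (Ideal.span_singleton_prime hP.ne_zero).2 hprime
  obtain ⟨e, θ, he, hgen, hind⟩ :=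
    Pool.Agent.H74.HX.pf_PEI (N + 1) k (Ideal.span {P}) F hS
  have hcv : Cvi (Ideal.span {P}) F e :=
    Pool.Agent.H33.HX.pf_CVD (N + 1) e k (Ideal.span {P}) F θ hS he hgen hind
  choose s c hs hc using fun (l : Fin (N + 1)) (j : Fin e) => hgen (X l * θ ^ (j : ℕ))
  obtain ⟨Δ, hΔ⟩ : ∃ Δ : Po (N + 1) k, Δ = ∏ l, ∏ j, s l j := ⟨_, rfl⟩
  have hne : ¬ P ∣ Δ := by
    rw [hΔ, hprime.dvd_finset_prod_iff]
    rintro ⟨l, -, hl⟩
    rw [hprime.dvd_finset_prod_iff] at hl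
    obtain ⟨j, -, hj⟩ := hl
    exact hs l j (Ideal.mem_span_singleton.2 hj)
  have hdvd : ∀ l j, ∃ t, Δ = s l j * t := by
    intro l j
    have h1 : s l j ∣ ∏ j, s l j := Finset.dvd_prod_of_mem _ (Finset.mem_univ j)
    have h2 : (∏ j, s l j) ∣ ∏ l, ∏ j, s l j :=
      Finset.dvd_prod_of_mem (fun l => ∏ j, s l j) (Finset.mem_univ l)
    rw [hΔ]
    exact h1.trans h2
  choose t ht using hdvd
  refine ⟨e, θ, Δ, ⟨he, hne, ?_⟩, hcv⟩
  refine bas_gen P F e he θ Δ (fun l j i => t l j * c l j i) fun l j => ?_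
  have h1 : P ∣ aeval F (s l j) * (X l * θ ^ (j : ℕ)) -
      ∑ i : Fin e, θ ^ (i : ℕ) * aeval F (c l j i) := Ideal.mem_span_singleton.1 (hc l j)
  have h2 : aeval F Δ * (X l * θ ^ (j : ℕ)) -
      ∑ i : Fin e, θ ^ (i : ℕ) * aeval F (t l j * c l j i) =
      aeval F (t l j) * (aeval F (s l j) * (X l * θ ^ (j : ℕ)) -
        ∑ i : Fin e, θ ^ (i : ℕ) * aeval F (c l j i)) := by
    rw [ht l j]
    simp only [map_mul, mul_sub, Finset.mul_sum]
    have e1 : ∑ x : Fin e, θ ^ (x : ℕ) * (aeval F (t l j) * aeval F (c l j x)) =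
        ∑ x : Fin e, aeval F (t l j) * (θ ^ (x : ℕ) * aeval F (c l j x)) :=
      Finset.sum_congr rfl fun x _ => by ring
    rw [e1]
    ring
  rw [h2]
  exact Dvd.dvd.mul_left h1 _

end Pool.Agent.H70.VZ
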